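import Mathlib
import Pool.Agent.Helper83.AH.SchmidtMain

/-!
# Schmidt rank is bounded linearly by the typical rank of the matrix slices

For every `d ≥ 2`, every finite field and every `d`-linear form `P`: fix two slots `s ≠ t` and
freeze the other `d - 2` slots; this gives a matrix.  If the rank of this matrix is at most `R`
except on a set of density less than `2^{-(d-2)}`, then the Schmidt rank of `P` is at most
`2 * 4^(d-2) * (2d-2)^(d-1) * R`.
-/

set_option autoImplicit false

namespace Pool.Agent.Results.MP_dc7dd9_co.TypicalRank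

/-- The matrix of the bilinear form obtained from `P` by freezing all slots except `s` and `t` at
the values of `x`: its `(i, j)` entry is the value of `P` at the point which is the unit vector
`e_i` in slot `s`, the unit vector `e_j` in slot `t` and `x` in the other slots. -/
noncomputable def slice {F : Type} [Field F] {d n : ℕ} (P : MvPolynomial (Fin d × Fin n) F)
    (s t : Fin d) (x : Fin d × Fin n → F) : Matrix (Fin n) (Fin n) F :=
  Matrix.of fun i j => MvPolynomial.eval (fun c => if c.1 = s then (if c.2 = i then 1 else 0)
    else if c.1 = t then (if c.2 = j then 1 else 0) else x c) P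

theorem result (d : ℕ) (hd : 2 ≤ d) (F : Type) [Field F] [Fintype F] [DecidableEq F] (n : ℕ)
    (P : MvPolynomial (Fin d × Fin n) F)
    (hP : ∀ m ∈ P.support, ∀ i : Fin d, ∑ j : Fin n, m (i, j) = 1)
    (s t : Fin d) (hst : s ≠ t) (R : ℕ)
    (h : 2 ^ (d - 2) * (Finset.univ.filter fun x : Fin d × Fin n → F =>
      R < (slice P s t x).rank).card < Fintype.card F ^ (d * n)) :
    ∃ k ≤ 2 * 4 ^ (d - 2) * (2 * d - 2) ^ (d - 1) * R,
      ∃ Q Q' : Fin k → MvPolynomial (Fin d × Fin n) F,
      (∀ i, (Q i).totalDegree < d ∧ (Q' i).totalDegree < d) ∧ P = ∑ i, Q i * Q' i :=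
  Helper83.AH.schmidt_main hd n P hP s t hst R h

end Pool.Agent.Results.MP_dc7dd9_co.TypicalRank
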